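import Mathlib
import Pool.Agent.Helper44.IETLower

/-!
Lower bound for the asymptotic repetition threshold of codings of interval exchanges.
-/

open Pool.Agent.Helper44.IET

namespace Pool.Agent.Results.MP_b68e99_co.LowerBound

/-- **Theorem.** For every `d ≥ 2` the asymptotic repetition threshold of the class of codings of
`d`-interval exchanges is at least `1 + 2 / ((d - 1) * log 3)`. -/
theorem result (d : ℕ) (hd : 2 ≤ d) :
    ((1 + 2 / (((d : ℝ) - 1) * Real.log 3) : ℝ) : EReal) ≤ RTstar d :=
  le_iInf₂ fun u hu => lower_asymp d hd u hu

end Pool.Agent.Results.MP_b68e99_co.LowerBound
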