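import Mathlib
import Pool.Agent.Helper28.IET3.Final

/-!
The repetition threshold and the asymptotic repetition threshold of codings of exchanges of three
intervals.
-/

open Pool.Agent.Helper44.IET

namespace Pool.Agent.Kept42.ThreeExact

/-- **Theorem.** The repetition threshold and the asymptotic repetition threshold of the class of
codings of irreducible exchanges of three intervals with Keane's condition both equal
`2 + √2 / 2`, and one coding attains both infima. -/
theorem result : RT 3 = ((2 + Real.sqrt 2 / 2 : ℝ) : EReal) ∧
    RTstar 3 = ((2 + Real.sqrt 2 / 2 : ℝ) : EReal) ∧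
    ∃ u ∈ Codings 3, critExp u = ((2 + Real.sqrt 2 / 2 : ℝ) : EReal) ∧
      asympCritExp u = ((2 + Real.sqrt 2 / 2 : ℝ) : EReal) :=
  Pool.Agent.Helper28.IET3.thresholds3

end Pool.Agent.Kept42.ThreeExact
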